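import Pool.Agent.Zk84.M4.Stm5

/-!
Faces of planar convex bodies: facts for the modules L10, L12, L13 of helper84.
-/

set_option autoImplicit false

namespace Pool.Agent.Zk63.M4

open Complex Set Filter Topology
open Pool.Agent.Zk84.M4 (InF Lk)

/-- the linear functional with the normal `e^(it)` -/
noncomputable def fn (t : ℝ) (x : ℂ) : ℝ := Real.cos t * x.re + Real.sin t * x.im

theorem inF_iff (P : Set ℂ) (t : ℝ) (x : ℂ) : InF P t x ↔ x ∈ P ∧ ∀ y ∈ P, fn t y ≤ fn t x := Iff.rfl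

theorem fn_two_pi (t : ℝ) (x : ℂ) : fn (t + 2 * Real.pi) x = fn t x := by
  unfold fn
  rw [Real.cos_add_two_pi, Real.sin_add_two_pi]

theorem fn_pi (t : ℝ) (x : ℂ) : fn (t + Real.pi) x = - fn t x := by
  unfold fn
  rw [Real.cos_add_pi, Real.sin_add_pi]
  ring

theorem fn_sub (t : ℝ) (x y : ℂ) : fn t (x - y) = fn t x - fn t y := by
  unfold fn
  rw [Complex.sub_re, Complex.sub_im]
  ring

/-- F0: period `2π` -/
theorem inF_two_pi (P : Set ℂ) (t : ℝ) (x : ℂ) : InF P (t + 2 * Real.pi) x ↔ InF P t x := by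
  rw [inF_iff, inF_iff]
  simp only [fn_two_pi]

theorem inF_int (P : Set ℂ) (t : ℝ) (n : ℤ) (x : ℂ) :
    InF P (t + n * (2 * Real.pi)) x ↔ InF P t x := by
  have h : ∀ y, fn (t + n * (2 * Real.pi)) y = fn t y := by
    intro y
    unfold fn
    rw [Real.cos_add_int_mul_two_pi, Real.sin_add_int_mul_two_pi]
  rw [inF_iff, inF_iff]
  simp only [h]

theorem lk_left (P : Set ℂ) (a b : ℝ) : Lk P (a + 2 * Real.pi) b ↔ Lk P a b := by
  unfold Lk
  simp only [inF_two_pi]

theorem lk_right (P : Set ℂ) (a b : ℝ) : Lk P a (b + 2 * Real.pi) ↔ Lk P a b := by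
  unfold Lk
  simp only [inF_two_pi]

theorem f0 (P : Set ℂ) (a b : ℝ) : Lk P (a + 2 * Real.pi) (b + 2 * Real.pi) ↔ Lk P a b := by
  rw [lk_left, lk_right]

theorem lk_int (P : Set ℂ) (a b : ℝ) (m n : ℤ) :
    Lk P (a + m * (2 * Real.pi)) (b + n * (2 * Real.pi)) ↔ Lk P a b := by
  unfold Lk
  simp only [inF_int]

theorem lk_symm {P : Set ℂ} {a b : ℝ} (h : Lk P a b) : Lk P b a := by
  obtain ⟨x, h1, h2⟩ := h
  exact ⟨x, h2, h1⟩

/-- the faces are not empty -/
theorem inF_exists {P : Set ℂ} (hc : IsCompact P) (hne : P.Nonempty) (t : ℝ) : ∃ x, InF P t x := by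
  have hcont : Continuous (fn t) := by
    unfold fn
    fun_prop
  obtain ⟨x, hx, hmax⟩ := hc.exists_isMaxOn hne hcont.continuousOn
  exact ⟨x, hx, fun y hy => hmax hy⟩

theorem lk_self {P : Set ℂ} (hc : IsCompact P) (hne : P.Nonempty) (t : ℝ) : Lk P t t := by
  obtain ⟨x, hx⟩ := inF_exists hc hne t
  exact ⟨x, hx, hx⟩

/-- F1: the relation is closed -/
theorem f1 {P : Set ℂ} (hc : IsCompact P) : IsClosed {p : ℝ × ℝ | Lk P p.1 p.2} := by
  rw [← isSeqClosed_iff_isClosed]
  intro u p hu hup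
  have hu' : ∀ n, ∃ x, InF P (u n).1 x ∧ InF P (u n).2 x := hu
  choose x hx1 hx2 using hu'
  obtain ⟨z, hz, φ, hφ, hlim⟩ := hc.tendsto_subseq fun n => (hx1 n).1
  have hup' : Tendsto (fun n => u (φ n)) atTop (𝓝 p) := hup.comp hφ.tendsto_atTop
  have ha : Tendsto (fun n => (u (φ n)).1) atTop (𝓝 p.1) :=
    Tendsto.comp (g := Prod.fst) (continuous_fst.tendsto p) hup'
  have hb : Tendsto (fun n => (u (φ n)).2) atTop (𝓝 p.2) :=
    Tendsto.comp (g := Prod.snd) (continuous_snd.tendsto p) hup'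
  have hlim' : Tendsto (fun n => x (φ n)) atTop (𝓝 z) := hlim
  have hre : Tendsto (fun n => (x (φ n)).re) atTop (𝓝 z.re) :=
    (Complex.continuous_re.tendsto z).comp hlim'
  have him : Tendsto (fun n => (x (φ n)).im) atTop (𝓝 z.im) :=
    (Complex.continuous_im.tendsto z).comp hlim'
  have key : ∀ (v : ℕ → ℝ) (a : ℝ), Tendsto (fun n => v (φ n)) atTop (𝓝 a) →
      (∀ n, InF P (v n) (x n)) → InF P a z := by
    intro v a hv hx
    have hcos : Tendsto (fun n => Real.cos (v (φ n))) atTop (𝓝 (Real.cos a)) :=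
      (Real.continuous_cos.tendsto a).comp hv
    have hsin : Tendsto (fun n => Real.sin (v (φ n))) atTop (𝓝 (Real.sin a)) :=
      (Real.continuous_sin.tendsto a).comp hv
    refine ⟨hz, fun y hy => ?_⟩
    have h2 := (hcos.mul_const y.re).add (hsin.mul_const y.im)
    have h3 := (hcos.mul hre).add (hsin.mul him)
    exact le_of_tendsto_of_tendsto' h2 h3 fun n => (hx (φ n)).2 y hy
  exact ⟨z, key (fun n => (u n).1) p.1 ha hx1, key (fun n => (u n).2) p.2 hb hx2⟩

/-- F1 for sequences or filters: `Lk` is closed under limits -/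
theorem f1_tendsto {P : Set ℂ} (hc : IsCompact P) {ι : Type} {l : Filter ι} [l.NeBot]
    {u v : ι → ℝ} {a b : ℝ} (hu : Tendsto u l (𝓝 a)) (hv : Tendsto v l (𝓝 b))
    (h : ∀ᶠ i in l, Lk P (u i) (v i)) : Lk P a b :=
  (f1 hc).mem_of_tendsto (hu.prodMk_nhds hv) h

/-- F1, open form: if `¬ Lk P a b` then `¬ Lk P a' b'` near `(a, b)` -/
theorem f1_nhds {P : Set ℂ} (hc : IsCompact P) {a b : ℝ} (h : ¬ Lk P a b) :
    ∃ ε : ℝ, 0 < ε ∧ ∀ a' b' : ℝ, |a' - a| < ε → |b' - b| < ε → ¬ Lk P a' b' := by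
  have h1 : {p : ℝ × ℝ | Lk P p.1 p.2}ᶜ ∈ 𝓝 (a, b) := (f1 hc).isOpen_compl.mem_nhds h
  obtain ⟨ε, hε, hs⟩ := Metric.mem_nhds_iff.1 h1
  refine ⟨ε, hε, fun a' b' ha hb => ?_⟩
  have : (a', b') ∈ Metric.ball (a, b) ε := by
    rw [Metric.mem_ball, Prod.dist_eq, max_lt_iff, Real.dist_eq, Real.dist_eq]
    exact ⟨ha, hb⟩
  exact hs this

/-- F2: opposite faces do not meet -/
theorem f2 {P : Set ℂ} (hi : (interior P).Nonempty) (a : ℝ) : ¬ Lk P a (a + Real.pi) := by
  rintro ⟨x, h1, h2⟩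
  obtain ⟨z, hz⟩ := hi
  obtain ⟨ε, hε, hs⟩ := Metric.isOpen_iff.1 isOpen_interior z hz
  have hPs : ∀ y, ‖y - z‖ < ε → y ∈ P := fun y hy =>
    interior_subset (hs (by rw [Metric.mem_ball, dist_eq_norm]; exact hy))
  have hconst : ∀ y ∈ P, fn a y = fn a x := by
    intro y hy
    have h3 := h1.2 y hy
    have h4 := h2.2 y hy
    change fn a y ≤ fn a x at h3
    change fn (a + Real.pi) y ≤ fn (a + Real.pi) x at h4
    rw [fn_pi, fn_pi] at h4
    linarith
  have hn : ‖(⟨Real.cos a, Real.sin a⟩ : ℂ)‖ = 1 := by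
    have : ‖(⟨Real.cos a, Real.sin a⟩ : ℂ)‖ ^ 2 = 1 := by
      rw [← Complex.normSq_eq_norm_sq, Complex.normSq_apply]
      have := Real.sin_sq_add_cos_sq a
      simp only
      nlinarith
    nlinarith [norm_nonneg (⟨Real.cos a, Real.sin a⟩ : ℂ)]
  have h3 := hconst z (hPs z (by simpa using hε))
  have h4 := hconst (z + ((ε / 2 : ℝ) : ℂ) * ⟨Real.cos a, Real.sin a⟩) (hPs _ (by
    rw [add_sub_cancel_left, norm_mul, hn, mul_one, Complex.norm_real, Real.norm_eq_abs,
      abs_of_pos (by linarith)]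
    linarith))
  have h5 : fn a (z + ((ε / 2 : ℝ) : ℂ) * ⟨Real.cos a, Real.sin a⟩) = fn a z + ε / 2 := by
    unfold fn
    have := Real.sin_sq_add_cos_sq a
    simp only [Complex.add_re, Complex.mul_re, Complex.ofReal_re, Complex.ofReal_im,
      Complex.add_im, Complex.mul_im]
    nlinarith
  rw [h5] at h4
  linarith

/-- the normal between two normals -/
theorem fn_comb (a t b : ℝ) (x : ℂ) : Real.sin (b - a) * fn t x =
    Real.sin (b - t) * fn a x + Real.sin (t - a) * fn b x := by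
  unfold fn
  rw [Real.sin_sub, Real.sin_sub, Real.sin_sub]
  ring

/-- F3: a point with the normals `a` and `b` has all the normals between them, and it is the only
point of these faces -/
theorem f3 {P : Set ℂ} {a t b : ℝ} (hat : a < t) (htb : t < b) (hba : b < a + Real.pi) {p : ℂ}
    (hpa : InF P a p) (hpb : InF P b p) : InF P t p ∧ ∀ q, InF P t q → q = p := by
  have s1 : 0 < Real.sin (b - a) := Real.sin_pos_of_pos_of_lt_pi (by linarith) (by linarith)
  have s2 : 0 < Real.sin (b - t) := Real.sin_pos_of_pos_of_lt_pi (by linarith) (by linarith)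
  have s3 : 0 < Real.sin (t - a) := Real.sin_pos_of_pos_of_lt_pi (by linarith) (by linarith)
  constructor
  · refine ⟨hpa.1, fun y hy => ?_⟩
    have h1 : fn a y ≤ fn a p := hpa.2 y hy
    have h2 : fn b y ≤ fn b p := hpb.2 y hy
    have h3 := fn_comb a t b y
    have h4 := fn_comb a t b p
    have h5 : Real.sin (b - a) * fn t y ≤ Real.sin (b - a) * fn t p := by
      rw [h3, h4]
      have := mul_le_mul_of_nonneg_left h1 s2.le
      have := mul_le_mul_of_nonneg_left h2 s3.le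
      linarith
    exact le_of_mul_le_mul_left h5 s1
  · intro q hq
    have h1 : fn a q ≤ fn a p := hpa.2 q hq.1
    have h2 : fn b q ≤ fn b p := hpb.2 q hq.1
    have h0 : fn t p ≤ fn t q := hq.2 p hpa.1
    have h3 := fn_comb a t b q
    have h4 := fn_comb a t b p
    have h5 := mul_le_mul_of_nonneg_left h0 s1.le
    have h6 := mul_le_mul_of_nonneg_left h1 s2.le
    have h7 := mul_le_mul_of_nonneg_left h2 s3.le
    have h8 : fn a q = fn a p := by
      have : Real.sin (b - t) * fn a q = Real.sin (b - t) * fn a p := by linarith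
      exact mul_left_cancel₀ s2.ne' this
    have h9 : fn b q = fn b p := by
      have : Real.sin (t - a) * fn b q = Real.sin (t - a) * fn b p := by linarith
      exact mul_left_cancel₀ s3.ne' this
    -- two independent functionals
    have e1 : fn a (q - p) = 0 := by rw [fn_sub]; linarith
    have e2 : fn b (q - p) = 0 := by rw [fn_sub]; linarith
    unfold fn at e1 e2
    rw [Real.sin_sub] at s1
    have e3 : (Real.sin b * Real.cos a - Real.cos b * Real.sin a) * (q - p).re = 0 := by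
      linear_combination Real.sin b * e1 - Real.sin a * e2
    have e4 : (Real.sin b * Real.cos a - Real.cos b * Real.sin a) * (q - p).im = 0 := by
      linear_combination Real.cos a * e2 - Real.cos b * e1
    have e5 : (q - p).re = 0 := (mul_eq_zero.1 e3).resolve_left s1.ne'
    have e6 : (q - p).im = 0 := (mul_eq_zero.1 e4).resolve_left s1.ne'
    exact sub_eq_zero.1 (Complex.ext e5 e6)

/-- F3 with closed ends: all the normals in `[a, b]` -/
theorem f3' {P : Set ℂ} {a t b : ℝ} (hat : a ≤ t) (htb : t ≤ b) (hba : b < a + Real.pi) {p : ℂ}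
    (hpa : InF P a p) (hpb : InF P b p) : InF P t p := by
  rcases hat.eq_or_lt with h | h
  · rw [← h]
    exact hpa
  rcases htb.eq_or_lt with h' | h'
  · rw [h']
    exact hpb
  exact (f3 h h' hba hpa hpb).1

/-- F4: monotonicity -/
theorem f4 {P : Set ℂ} {a a' b' b : ℝ} (h : Lk P a b) (h1 : a ≤ a') (h2 : a' ≤ b') (h3 : b' ≤ b)
    (h4 : b < a + Real.pi) : Lk P a' b' := by
  obtain ⟨p, hpa, hpb⟩ := h
  exact ⟨p, f3' h1 (h2.trans h3) h4 hpa hpb, f3' (h1.trans h2) h3 h4 hpa hpb⟩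

end Pool.Agent.Zk63.M4
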